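import Mathlib
import Pool.Agent.H709K.D

set_option autoImplicit false
open scoped ComplexOrder

namespace Pool.Agent.Results.MP_2dd521_co.TwoByTwo

open Pool.Agent.H709K

lemma kron_comm {n m : ℕ} (A : Matrix (Fin n) (Fin n) ℂ) (B : Matrix (Fin m) (Fin m) ℂ) :
    (Matrix.kronecker A B).permanent = (Matrix.kronecker B A).permanent := by
  rw [← permanent_submatrix_equiv (Equiv.prodComm (Fin n) (Fin m)) (Matrix.kronecker B A)]
  congr 1
  ext ⟨i, a⟩ ⟨j, b⟩
  change A i j * B a b = B a b * A i j
  ring

lemma kron_zero {n : ℕ} (A : Matrix (Fin n) (Fin n) ℂ) (B : Matrix (Fin 0) (Fin 0) ℂ) :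
    A.permanent ^ 0 * B.permanent ^ n ≤ (Matrix.kronecker A B).permanent := by
  have h1 : B.permanent = 1 := Matrix.permanent_isEmpty
  have h2 : (Matrix.kronecker A B).permanent = 1 := Matrix.permanent_isEmpty
  rw [h1, h2]
  simp

lemma kron_one {n : ℕ} (A : Matrix (Fin n) (Fin n) ℂ) (B : Matrix (Fin 1) (Fin 1) ℂ) :
    A.permanent ^ 1 * B.permanent ^ n ≤ (Matrix.kronecker A B).permanent := by
  have h : (Matrix.kronecker A B).permanent = (B 0 0) ^ n * A.permanent := by
    rw [← permanent_submatrix_equiv (Equiv.prodUnique (Fin n) (Fin 1)).symm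
      (Matrix.kronecker A B)]
    have : (Matrix.kronecker A B).submatrix (Equiv.prodUnique (Fin n) (Fin 1)).symm
        (Equiv.prodUnique (Fin n) (Fin 1)).symm = (B 0 0) • A := by
      ext i j
      change A i j * B default default = B 0 0 * A i j
      rw [mul_comm]
      rfl
    rw [this, Matrix.permanent_smul, Fintype.card_fin]
  rw [h, Matrix.permanent_unique B, pow_one, mul_comm]
  exact le_rfl

lemma kron_le_two {n m : ℕ} (A : Matrix (Fin n) (Fin n) ℂ) (B : Matrix (Fin m) (Fin m) ℂ)
    (hA : A.PosSemidef) (hB : B.PosSemidef) (hm : m ≤ 2) :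
    A.permanent ^ m * B.permanent ^ n ≤ (Matrix.kronecker A B).permanent := by
  interval_cases m
  · exact kron_zero A B
  · exact kron_one A B
  · exact kron_two n A B hA hB

/-- The Liang-So-Zhang inequality for Kronecker products of positive semidefinite matrices when
one of the two factors has size at most two. -/
theorem result :
    ∀ (n m : ℕ) (A : Matrix (Fin n) (Fin n) ℂ) (B : Matrix (Fin m) (Fin m) ℂ),
      A.PosSemidef → B.PosSemidef → (n ≤ 2 ∨ m ≤ 2) →
        A.permanent ^ m * B.permanent ^ n ≤ (Matrix.kronecker A B).permanent := by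
  intro n m A B hA hB h
  rcases h with h | h
  · rw [kron_comm, mul_comm]
    exact kron_le_two B A hB hA h
  · exact kron_le_two A B hA hB h

end Pool.Agent.Results.MP_2dd521_co.TwoByTwo
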